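import Mathlib
import Pool.Agent.Lib.MP_0f64a9_nt.Final
import Pool.Agent.Lib.MP_0f64a9_nt.Norm
import Pool.Agent.Lib.MP_0f64a9_nt.Reduce

set_option autoImplicit false

namespace Pool.Agent.Results.MP_0f64a9_nt.FiniteForm

/-- The infinite form: no colouring of the positive integers with 211 colours gives distinct
colours to the first 211 multiples of every positive integer. -/
private theorem infinite_form (C : ℕ+ → Fin 211)
    (hC : ∀ a i j : ℕ+, i < j → j ≤ 211 → C (i * a) ≠ C (j * a)) : False := by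
  have hinj : ∀ a i j : ℕ+, i ≤ 211 → j ≤ 211 → C (i * a) = C (j * a) → i = j := by
    intro a i j hi hj h
    rcases lt_trichotomy i j with h1 | h1 | h1
    · exact absurd h (hC a i j h1 hj)
    · exact h1
    · exact absurd h.symm (hC a j i h1 hi)
  set c : ℕ → Fin 211 := fun n => if h : 0 < n then C ⟨n, h⟩ else 0 with hc
  have hcC : ∀ n : ℕ+, c (n : ℕ) = C n := by
    intro n
    simp only [hc]
    rw [dif_pos n.pos]
    rfl
  have key : ∀ a : ℕ, 0 < a → Set.InjOn (fun i : ℕ => c (i * a)) (Set.Icc 1 211) := by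
    intro a ha i hi j hj hij
    have hi0 : 0 < i := hi.1
    have hj0 : 0 < j := hj.1
    have h1 : c (i * a) = C (⟨i, hi0⟩ * ⟨a, ha⟩) := by
      rw [← hcC]
      rfl
    have h2 : c (j * a) = C (⟨j, hj0⟩ * ⟨a, ha⟩) := by
      rw [← hcC]
      rfl
    have h3 := hinj ⟨a, ha⟩ ⟨i, hi0⟩ ⟨j, hj0⟩
      (by rw [← PNat.coe_le_coe]; exact hi.2) (by rw [← PNat.coe_le_coe]; exact hj.2)
      (by rw [← h1, ← h2]; exact hij)
    exact congrArg PNat.val h3
  haveI : Fact (Nat.Prime 211) := ⟨by norm_num⟩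
  obtain ⟨g, h1, h2, h3⟩ := Pool.Agent.Lib.MP_0f64a9_nt.exists_additive key
  obtain ⟨f, hf⟩ := Pool.Agent.Lib.MP_0f64a9_nt.good_of_additive g h1 h2 h3
  exact Pool.Agent.Lib.MP_0f64a9_nt.no_good f hf

/-- There is `N` such that, for every colouring `c` of the positive integers with 211 colours
(only the colours of `1, …, N` matter), there are positive integers `a` and `i < j ≤ 211` with
`211 a ≤ N` such that `i a` and `j a` have the same colour. -/
theorem result :
    ∃ N : ℕ, ∀ c : ℕ+ → Fin 211, ∃ a i j : ℕ+,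
      i < j ∧ j ≤ 211 ∧ 211 * (a : ℕ) ≤ N ∧ c (i * a) = c (j * a) := by
  by_contra hcon
  push Not at hcon
  choose c hc using hcon
  have hk : ∀ m : ℕ+, ∃ k : Fin 211, ∀ᶠ N in (Filter.hyperfilter ℕ : Filter ℕ), c N m = k := by
    intro m
    obtain ⟨k, hk⟩ := Ultrafilter.eq_pure_of_finite ((Filter.hyperfilter ℕ).map (fun N => c N m))
    refine ⟨k, ?_⟩
    have h1 : ({k} : Set (Fin 211)) ∈ (Filter.hyperfilter ℕ).map (fun N => c N m) := by
      rw [hk]
      exact Ultrafilter.mem_pure.mpr rfl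
    exact h1
  choose C hC using hk
  refine infinite_form C ?_
  intro a i j hij hj hEq
  have h1 : ∀ᶠ N in (Filter.hyperfilter ℕ : Filter ℕ), 211 * (a : ℕ) ≤ N :=
    Nat.hyperfilter_le_atTop (Filter.eventually_ge_atTop _)
  have h2 := (h1.and ((hC (i * a)).and (hC (j * a)))).exists
  obtain ⟨N, hN, hi, hj'⟩ := h2
  exact hc N a i j hij hj hN (by rw [hi, hj', hEq])

end Pool.Agent.Results.MP_0f64a9_nt.FiniteForm
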